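import Pool.Agent.Helper27.PHU.Defs

/-!
# PHU-4: existence of the features of a framed body
-/

set_option autoImplicit false

open MeasureTheory Set

namespace Pool.Agent.Helper45.PHU

open Pool.Agent.Helper27.PHU Pool.Agent.Helper37.PH Pool.Agent.Helper61.PH

/-- The feature at one corner, in coordinates `u`, `v`. -/
theorem corner {K : Set (ℝ × ℝ)} (hK : IsCompact K) (u v : ℝ × ℝ → ℝ) (hu : Continuous u)
    (hv : Continuous v) {a c l : ℝ} (ha : 0 < a) (hc : 0 < c)
    (m0 : ∃ q ∈ K, u q = 0 ∧ v q = 0) (mT : ∃ q ∈ K, u q = c ∧ v q = a)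
    (mn : ∃ q ∈ K, u q = 0 ∧ v q = -(1 / 2)) (top : ∀ q ∈ K, v q ≤ a)
    (L : ∀ q ∈ K, -u q ≤ -l * v q) :
    ∃ e, 0 ≤ e ∧ e ≤ a ∧ (∀ q ∈ K, v q ≤ a * (u q / c) + e) ∧
      ∃ q ∈ K, 0 ≤ u q ∧ u q ≤ c ∧ v q = a * (u q / c) + e := by
  obtain ⟨p0, hp0, hp0u, hp0v⟩ := m0
  obtain ⟨pT, hpT, hpTu, hpTv⟩ := mT
  obtain ⟨pn, hpn, hpnu, hpnv⟩ := mn
  have hl : 0 ≤ l := by
    have := L pn hpn
    rw [hpnu, hpnv] at this
    linarith
  have hla : l * a ≤ c := by
    have := L pT hpT
    rw [hpTu, hpTv] at this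
    linarith
  -- points with negative `u`
  have hneg : ∀ q ∈ K, u q < 0 → v q - a * (u q / c) ≤ 0 := by
    intro q hq hqu
    have h1 := L q hq
    have h2 : l * v q < 0 := by linarith
    have hvq : v q < 0 := by
      by_contra hcon
      push Not at hcon
      have := mul_nonneg hl hcon
      linarith
    have h3 : a * (-u q) ≤ c * (-v q) := by
      have h4 : a * (-u q) ≤ a * (l * (-v q)) := by
        apply mul_le_mul_of_nonneg_left _ ha.le
        linarith
      have h5 : a * (l * (-v q)) ≤ c * (-v q) := by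
        have : (l * a) * (-v q) ≤ c * (-v q) :=
          mul_le_mul_of_nonneg_right hla (by linarith)
        linarith
      linarith
    have h6 : a * (u q / c) = (a * u q) / c := by ring
    rw [h6, sub_nonpos, le_div_iff₀ hc]
    linarith
  -- the maximum over the points with `u ≤ c`
  have hK' : IsCompact (K ∩ {q | u q ≤ c}) :=
    hK.inter_right (isClosed_le hu continuous_const)
  have hne : (K ∩ {q | u q ≤ c}).Nonempty := ⟨p0, hp0, by
    show u p0 ≤ c
    rw [hp0u]; exact hc.le⟩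
  have hcont : Continuous fun q => v q - a * (u q / c) := by fun_prop
  obtain ⟨m, hm, hmax⟩ := hK'.exists_isMaxOn hne hcont.continuousOn
  have hmK : m ∈ K := hm.1
  have hmc : u m ≤ c := hm.2
  have hmax' : ∀ q ∈ K, u q ≤ c → v q - a * (u q / c) ≤ v m - a * (u m / c) :=
    fun q hq hqc => hmax ⟨hq, hqc⟩
  have h0 : 0 ≤ v m - a * (u m / c) := by
    have := hmax' p0 hp0 (by rw [hp0u]; exact hc.le)
    rw [hp0u, hp0v] at this
    simpa using this
  refine ⟨v m - a * (u m / c), h0, ?_, ?_, ?_⟩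
  · rcases lt_or_ge (u m) 0 with hum | hum
    · exact (hneg m hmK hum).trans ha.le
    · have h1 := top m hmK
      have h2 : 0 ≤ a * (u m / c) := mul_nonneg ha.le (div_nonneg hum hc.le)
      linarith
  · intro q hq
    rcases le_or_gt (u q) c with hqc | hqc
    · have := hmax' q hq hqc
      linarith
    · have h1 := top q hq
      have h2 : 1 ≤ u q / c := by
        rw [le_div_iff₀ hc]; linarith
      have h3 : a ≤ a * (u q / c) := by nlinarith
      linarith
  · rcases lt_or_ge (u m) 0 with hum | hum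
    · have h1 := hneg m hmK hum
      refine ⟨p0, hp0, by rw [hp0u], by rw [hp0u]; exact hc.le, ?_⟩
      rw [hp0u, hp0v]
      have h2 : v m - a * (u m / c) = 0 := le_antisymm h1 h0
      rw [h2]
      simp
    · exact ⟨m, hmK, hum, hmc, by ring⟩

theorem exists_feat {K : Set (ℝ × ℝ)} {b c1 c2 r1 r2 l1 l2 : ℝ}
    (h : Frame K b c1 c2 r1 r2 l1 l2) :
    ∃ lam rho e1 f1 e2 f2 : ℝ, Feat K b c1 c2 lam rho e1 f1 e2 f2 := by
  have hK : IsCompact K := h.body.compact
  have hb0 := h.b0
  have hb1 := h.b1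
  have hc10 := h.c10
  have hc11 := h.c11
  have hc20 := h.c20
  have hc21 := h.c21
  have hne : K.Nonempty := ⟨_, h.mA⟩
  obtain ⟨ml, hml, hmlmax⟩ := hK.exists_isMinOn hne (continuous_fst.continuousOn)
  obtain ⟨mr, hmr, hmrmax⟩ := hK.exists_isMaxOn hne (continuous_fst.continuousOn)
  have hl : ∀ q ∈ K, ml.1 ≤ q.1 := fun q hq => hmlmax hq
  have hr : ∀ q ∈ K, q.1 ≤ mr.1 := fun q hq => hmrmax hq
  obtain ⟨e1, he10, he11, he1, qe1, hqe1, hqe10, hqe1c, hqe1v⟩ :=
    corner (K := K) hK (fun q => q.1) (fun q => q.2 - (b + 1 / 2)) (by fun_prop) (by fun_prop)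
      (a := 1 / 2 - b) (c := c1) (l := l2) (by linarith) hc10
      ⟨_, h.mB, rfl, by simp⟩ ⟨_, h.mT, rfl, by simp; ring⟩
      ⟨_, h.mA, rfl, by simp⟩ (fun q hq => by have := h.top q hq; linarith)
      (fun q hq => by have := h.L2 q hq; linarith)
  obtain ⟨f1, hf10, hf11, hf1, qf1, hqf1, hqf10, hqf1c, hqf1v⟩ :=
    corner (K := K) hK (fun q => 1 - q.1) (fun q => q.2 - (b + 1 / 2)) (by fun_prop)
      (by fun_prop) (a := 1 / 2 - b) (c := 1 - c1) (l := r2) (by linarith) (by linarith)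
      ⟨_, h.mC, by simp, by simp⟩ ⟨_, h.mT, rfl, by simp; ring⟩
      ⟨_, h.mD, by simp, by simp⟩ (fun q hq => by have := h.top q hq; linarith)
      (fun q hq => by have := h.R2 q hq; linarith)
  obtain ⟨e2, he20, he21, he2, qe2, hqe2, hqe20, hqe2c, hqe2v⟩ :=
    corner (K := K) hK (fun q => q.1) (fun q => b - q.2) (by fun_prop) (by fun_prop)
      (a := b) (c := c2) (l := l1) hb0 hc20
      ⟨_, h.mA, rfl, by simp⟩ ⟨_, h.mU, rfl, by simp⟩
      ⟨_, h.mB, rfl, by simp⟩ (fun q hq => by have := h.bot q hq; linarith)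
      (fun q hq => by have := h.L1 q hq; linarith)
  obtain ⟨f2, hf20, hf21, hf2, qf2, hqf2, hqf20, hqf2c, hqf2v⟩ :=
    corner (K := K) hK (fun q => 1 - q.1) (fun q => b - q.2) (by fun_prop) (by fun_prop)
      (a := b) (c := 1 - c2) (l := r1) hb0 (by linarith)
      ⟨_, h.mD, by simp, by simp⟩ ⟨_, h.mU, rfl, by simp⟩
      ⟨_, h.mC, by simp, by simp⟩ (fun q hq => by have := h.bot q hq; linarith)
      (fun q hq => by have := h.R1 q hq; linarith)
  refine ⟨-ml.1, mr.1 - 1, e1, f1, e2, f2, ?_⟩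
  refine
    { lam0 := ?_, rho0 := ?_, e10 := he10, e11 := he11, f10 := hf10, f11 := hf11,
      e20 := he20, e21 := he21, f20 := hf20, f21 := hf21, hl := ?_, hr := ?_, tl := ?_,
      tr := ?_, bl := ?_, br := ?_, xl := ?_, xr := ?_, xtl := ?_, xtr := ?_, xbl := ?_,
      xbr := ?_ }
  · have := hl _ h.mA
    simp only at this
    linarith
  · have := hr _ h.mC
    simp only at this
    linarith
  · intro q hq
    have := hl q hq
    linarith
  · intro q hq
    have := hr q hq
    linarith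
  · intro q hq
    have := he1 q hq
    linarith
  · intro q hq
    have := hf1 q hq
    linarith
  · intro q hq
    have := he2 q hq
    linarith
  · intro q hq
    have := hf2 q hq
    linarith
  · refine ⟨ml.2, ?_⟩
    rw [neg_neg]
    exact hml
  · refine ⟨mr.2, ?_⟩
    have : (1 : ℝ) + (mr.1 - 1) = mr.1 := by ring
    rw [this]
    exact hmr
  · refine ⟨qe1.1, hqe10, hqe1c, ?_⟩
    have : (qe1.1, b + 1 / 2 + (1 / 2 - b) * (qe1.1 / c1) + e1) = qe1 := by
      ext
      · rfl
      · simp only at hqe1v ⊢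
        linarith
    rw [this]
    exact hqe1
  · refine ⟨qf1.1, ?_, ?_, ?_⟩
    · linarith
    · linarith
    have : (qf1.1, b + 1 / 2 + (1 / 2 - b) * ((1 - qf1.1) / (1 - c1)) + f1) = qf1 := by
      ext
      · rfl
      · simp only at hqf1v ⊢
        linarith
    rw [this]
    exact hqf1
  · refine ⟨qe2.1, hqe20, hqe2c, ?_⟩
    have : (qe2.1, b - b * (qe2.1 / c2) - e2) = qe2 := by
      ext
      · rfl
      · simp only at hqe2v ⊢
        linarith
    rw [this]
    exact hqe2
  · refine ⟨qf2.1, ?_, ?_, ?_⟩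
    · linarith
    · linarith
    have : (qf2.1, b - b * ((1 - qf2.1) / (1 - c2)) - f2) = qf2 := by
      ext
      · rfl
      · simp only at hqf2v ⊢
        linarith
    rw [this]
    exact hqf2

end Pool.Agent.Helper45.PHU
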